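import Mathlib
import Pool.Agent.Lib_helper59.PT.Compact2

set_option autoImplicit false
set_option maxSynthPendingDepth 3

open Filter Topology MeasureTheory Function

namespace PU

/-- weak* sequential compactness on a separable subspace. -/
theorem seq_weakstar {X : Type*} [NormedAddCommGroup X] [NormedSpace ℝ X]
    (W : Submodule ℝ X) [TopologicalSpace.SeparableSpace W] (w : ℕ → (X →L[ℝ] ℝ)) (C : ℝ)
    (hw : ∀ k, ‖w k‖ ≤ C) :
    ∃ (w0 : X →L[ℝ] ℝ) (s : ℕ → ℕ), StrictMono s ∧
      ∀ z ∈ W, Tendsto (fun k => w (s k) z) atTop (𝓝 (w0 z)) := by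
  have hC : 0 ≤ C := (norm_nonneg _).trans (hw 0)
  let w' : ℕ → (W →L[ℝ] ℝ) := fun k => (w k).comp W.subtypeL
  have hw' : ∀ k, ‖w' k‖ ≤ C := by
    intro k
    refine ContinuousLinearMap.opNorm_le_bound _ hC fun z => ?_
    calc ‖w' k z‖ = ‖w k (z : X)‖ := rfl
      _ ≤ ‖w k‖ * ‖(z : X)‖ := (w k).le_opNorm _
      _ ≤ C * ‖z‖ := by
        gcongr
        · exact hw k
        · exact le_rfl
  have hseq := WeakDual.isSeqCompact_closedBall ℝ W (0 : W →L[ℝ] ℝ) C
  have hmem : ∀ k, StrongDual.toWeakDual (w' k) ∈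
      WeakDual.toStrongDual ⁻¹' Metric.closedBall (0 : StrongDual ℝ W) C := by
    intro k
    simp only [Set.mem_preimage, Metric.mem_closedBall, dist_zero_right]
    exact hw' k
  obtain ⟨w0', hw0', s, hs, hlim⟩ := hseq hmem
  let w0 : W →L[ℝ] ℝ := WeakDual.toStrongDual w0'
  have hlim' : ∀ z : W, Tendsto (fun k => w' (s k) z) atTop (𝓝 (w0 z)) := by
    intro z
    have := (WeakDual.eval_continuous (𝕜 := ℝ) z).continuousAt (x := w0')
    exact this.tendsto.comp hlim
  obtain ⟨g, hg1, -⟩ := exists_extension_norm_eq W w0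
  refine ⟨g, s, hs, fun z hz => ?_⟩
  have h1 := hlim' ⟨z, hz⟩
  rw [← hg1 ⟨z, hz⟩] at h1
  exact h1

/-- unconditionally weakly summable sequences are weakly null on bounded sets of functionals. -/
theorem no_hump {X : Type*} [NormedAddCommGroup X] [NormedSpace ℝ X]
    (a : ℕ → X) (V : Set ℕ → X)
    (hV : ∀ (φ : X →L[ℝ] ℝ) (M : Set ℕ), HasSum (fun j => M.indicator (fun j => φ (a j)) j) (φ (V M)))
    (δ : ℝ) (hδ : 0 < δ) (w : ℕ → (X →L[ℝ] ℝ)) (C : ℝ) (hw : ∀ k, ‖w k‖ ≤ C)
    (hbig : ∀ k, δ ≤ |w k (a k)|) : False := by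
  classical
  let W : Submodule ℝ X := (Submodule.span ℝ (Set.range a)).topologicalClosure
  have hsep : TopologicalSpace.IsSeparable (W : Set X) := by
    have h1 : TopologicalSpace.IsSeparable (Set.range a) :=
      (Set.countable_range a).isSeparable
    have h2 := h1.span (R := ℝ)
    exact h2.closure
  have : TopologicalSpace.SeparableSpace W := hsep.separableSpace
  have ha : ∀ j, a j ∈ W := fun j =>
    Submodule.le_topologicalClosure _ (Submodule.subset_span ⟨j, rfl⟩)
  have hVW : ∀ M, V M ∈ W := by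
    intro M
    by_contra hcon
    have hcl : IsClosed (W : Set X) := Submodule.isClosed_topologicalClosure _
    obtain ⟨φ, u, h1, h2⟩ := geometric_hahn_banach_closed_point W.convex hcl hcon
    have h3 : ∀ z ∈ W, φ z = 0 := by
      intro z hz
      by_contra hne
      have h4 := h1 (((|u| + 1) / φ z) • z) (W.smul_mem _ hz)
      rw [map_smul, smul_eq_mul, div_mul_cancel₀ _ hne] at h4
      have := le_abs_self u
      linarith
    have h0 := h1 0 W.zero_mem
    rw [map_zero] at h0
    have h5 : φ (V M) = 0 := by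
      have h6 := hV φ M
      have h7 : (fun j => M.indicator (fun j => φ (a j)) j) = fun _ => (0 : ℝ) := by
        funext j
        by_cases hj : j ∈ M
        · simp [hj, h3 _ (ha j)]
        · simp [hj]
      rw [h7] at h6
      exact h6.unique hasSum_zero
    linarith
  obtain ⟨w0, s, hs, hlim⟩ := seq_weakstar W w C hw
  have hsum : ∀ (φ : X →L[ℝ] ℝ) (M : Set ℕ),
      HasSum (fun j => M.indicator (fun j => φ (a (s j))) j) (φ (V (s '' M))) := by
    intro φ M
    have h1 := hV φ (s '' M)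
    have h2 : (fun j => M.indicator (fun j => φ (a (s j))) j) =
        (fun i => (s '' M).indicator (fun i => φ (a i)) i) ∘ s := by
      funext j
      by_cases hj : j ∈ M
      · simp [hj, hs.injective.mem_set_image]
      · simp [hj, hs.injective.mem_set_image]
    rw [h2, hs.injective.hasSum_iff]
    · exact h1
    · intro x hx
      refine Set.indicator_of_notMem ?_ _
      rintro ⟨y, -, rfl⟩
      exact hx ⟨y, rfl⟩
  have hsum1 : ∀ (φ : X →L[ℝ] ℝ), Summable (fun j => φ (a (s j))) := by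
    intro φ
    have := (hsum φ Set.univ).summable
    simpa using this
  let b : ℕ → ℕ → ℝ := fun k j => (w (s k) - w0) (a (s j))
  have hb1 : ∀ k, Summable (fun j => |b k j|) := fun k => (hsum1 (w (s k) - w0)).abs
  have hb2 : ∀ M : Set ℕ, Tendsto (fun k => ∑' j, M.indicator (b k) j) atTop (𝓝 0) := by
    intro M
    have h2 : (fun k => ∑' j, M.indicator (b k) j) = fun k => (w (s k) - w0) (V (s '' M)) := by
      funext k
      exact (hsum (w (s k) - w0) M).tsum_eq
    rw [h2]
    have h3 := (hlim _ (hVW (s '' M))).sub_const (w0 (V (s '' M)))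
    rw [sub_self] at h3
    exact h3
  have hdiag := PT.schur_diag b hb1 hb2
  have h0 : Tendsto (fun k => w0 (a (s k))) atTop (𝓝 0) := (hsum1 w0).tendsto_atTop_zero
  have h4 := hdiag.add h0
  rw [add_zero] at h4
  have h5 : (fun k => b k k + w0 (a (s k))) = fun k => w (s k) (a (s k)) := by
    funext k
    simp only [b, _root_.sub_apply]
    ring
  rw [h5] at h4
  have h6 := h4.abs
  rw [abs_zero] at h6
  obtain ⟨k, hk⟩ := (h6.eventually (gt_mem_nhds hδ)).exists
  exact absurd (hbig (s k)) (not_le.mpr hk)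

/-- disjoint sets cannot carry large values of the integrals. -/
theorem no_hump_int {X : Type*} [NormedAddCommGroup X] [NormedSpace ℝ X]
    {Ω : Type*} [MeasurableSpace Ω] {μ : Measure Ω} (f : Ω → X)
    (hi : ∀ φ : X →L[ℝ] ℝ, Integrable (fun ω => φ (f ω)) μ)
    (hP : ∀ A : Set Ω, MeasurableSet A → ∃ v : X, ∀ φ : X →L[ℝ] ℝ, φ v = ∫ ω in A, φ (f ω) ∂μ)
    (δ : ℝ) (hδ : 0 < δ) (A : ℕ → Set Ω) (hA : ∀ k, MeasurableSet (A k))
    (hd : Pairwise (Disjoint on A)) (w : ℕ → (X →L[ℝ] ℝ)) (C : ℝ) (hw : ∀ k, ‖w k‖ ≤ C)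
    (hbig : ∀ k, δ ≤ |∫ ω in A k, w k (f ω) ∂μ|) : False := by
  classical
  have hAM : ∀ M : Set ℕ, MeasurableSet (⋃ j, (if j ∈ M then A j else ∅)) := by
    intro M
    refine MeasurableSet.iUnion fun j => ?_
    by_cases hj : j ∈ M
    · simp only [hj, if_true]; exact hA _
    · simp [hj]
  have h1 := fun M => hP _ (hAM M)
  choose V hV using h1
  have h2 := fun j => hP _ (hA j)
  choose a ha using h2
  refine no_hump a V ?_ δ hδ w C hw (fun k => by rw [ha]; exact hbig k)
  intro φ M
  have h1 := hasSum_integral_iUnion (μ := μ) (f := fun ω => φ (f ω))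
    (s := fun j => if j ∈ M then A j else ∅) (by
      intro j
      by_cases hj : j ∈ M
      · simp only [hj, if_true]; exact hA _
      · simp [hj]) (by
      intro i j hij
      simp only [Function.onFun]
      by_cases hi' : i ∈ M
      · by_cases hj' : j ∈ M
        · simp only [hi', hj', if_true]
          exact hd hij
        · simp [hj']
      · simp [hi']) (hi φ).integrableOn
  rw [hV]
  have h2 : (fun j => M.indicator (fun j => φ (a j)) j) =
      fun j => ∫ ω in (if j ∈ M then A j else ∅), φ (f ω) ∂μ := by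
    funext j
    by_cases hj : j ∈ M
    · simp [hj, ha]
    · simp [hj]
  rw [h2]
  exact h1

/-- Uniformly small tails. -/
theorem small_tails {X : Type*} [NormedAddCommGroup X] [NormedSpace ℝ X]
    {Ω : Type*} [MeasurableSpace Ω] {μ : Measure Ω} (f : Ω → X)
    (hi : ∀ φ : X →L[ℝ] ℝ, Integrable (fun ω => φ (f ω)) μ)
    (hP : ∀ A : Set Ω, MeasurableSet A → ∃ v : X, ∀ φ : X →L[ℝ] ℝ, φ v = ∫ ω in A, φ (f ω) ∂μ)
    (C : ℕ → Set Ω) (hC : ∀ n, MeasurableSet (C n)) (hanti : Antitone C) (hempty : ⋂ n, C n = ∅)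
    (ε : ℝ) (hε : 0 < ε) :
    ∃ n, ∀ φ : X →L[ℝ] ℝ, ‖φ‖ ≤ 1 → ∫ ω in C n, |φ (f ω)| ∂μ ≤ ε := by
  classical
  by_contra hcon
  push Not at hcon
  choose w hw1 hw2 using hcon
  have hm : ∀ n, ∃ m, n < m ∧ ∫ ω in C m, |w n (f ω)| ∂μ < ε / 2 := by
    intro n
    have h1 := tendsto_setIntegral_of_antitone (μ := μ) (f := fun ω => |w n (f ω)|) hC hanti
      ⟨0, (hi (w n)).abs.integrableOn⟩
    rw [hempty, setIntegral_empty] at h1
    have h2 := (h1.eventually (gt_mem_nhds (show (0 : ℝ) < ε / 2 by positivity))).and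
      (eventually_gt_atTop n)
    obtain ⟨m, hm1, hm2⟩ := h2.exists
    exact ⟨m, hm2, hm1⟩
  choose m hm1 hm2 using hm
  let q : ℕ → ℕ := fun k => m^[k] 0
  have hq : ∀ k, q (k + 1) = m (q k) := fun k => Function.iterate_succ_apply' m k 0
  have hqmono : StrictMono q := strictMono_nat_of_lt_succ fun k => by
    rw [hq]
    exact hm1 _
  let B : ℕ → Set Ω := fun k => C (q k) \ C (q (k + 1))
  have hB : ∀ k, MeasurableSet (B k) := fun k => (hC _).diff (hC _)
  have hBd : Pairwise (Disjoint on B) := by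
    have key : ∀ i j, i < j → Disjoint (B i) (B j) := by
      intro i j hij
      rw [Set.disjoint_left]
      intro ω h1 h2
      have h3 : q (i + 1) ≤ q j := hqmono.monotone hij
      exact h1.2 (hanti h3 h2.1)
    intro i j hij
    rcases lt_or_gt_of_ne hij with h | h
    · exact key i j h
    · exact (key j i h).symm
  have hBint : ∀ k, ε / 2 < ∫ ω in B k, |w (q k) (f ω)| ∂μ := by
    intro k
    have e1 : ∫ ω in C (q k), |w (q k) (f ω)| ∂μ = (∫ ω in B k, |w (q k) (f ω)| ∂μ) +
        ∫ ω in C (q (k + 1)), |w (q k) (f ω)| ∂μ := by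
      rw [← setIntegral_union]
      · congr 2
        rw [Set.sdiff_union_of_subset (hanti (hqmono.monotone (Nat.le_succ k)))]
      · exact Set.disjoint_sdiff_left
      · exact hC _
      · exact (hi (w (q k))).abs.integrableOn
      · exact (hi (w (q k))).abs.integrableOn
    have e2 := hw2 (q k)
    have e3 := hm2 (q k)
    rw [← hq] at e3
    linarith
  have hA := fun k => PT.half_part (fun ω => w (q k) (f ω)) (hi (w (q k))) (B k) (hB k) (ε / 2)
    (hBint k)
  choose A hA1 hA2 hA3 using hA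
  refine no_hump_int f hi hP (ε / 2 / 2) (by positivity) A hA1 ?_ (fun k => w (q k)) 1
    (fun k => hw1 (q k)) hA3
  intro i j hij
  exact (hBd hij).mono (hA2 i) (hA2 j)

end PU
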