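import Mathlib
import Pool.Agent.Lib_helper59.PU.Tail

set_option autoImplicit false
set_option maxSynthPendingDepth 3

open Filter Topology MeasureTheory Function

namespace PU

/-- weak sequential compactness of bounded sequences in a Hilbert space. -/
theorem weak_seq {H : Type*} [NormedAddCommGroup H] [InnerProductSpace ℝ H] [CompleteSpace H]
    (k : ℕ → H) (C : ℝ) (hk : ∀ n, ‖k n‖ ≤ C) :
    ∃ (u : H) (s : ℕ → ℕ), StrictMono s ∧
      ∀ h : H, Tendsto (fun n => inner ℝ (k (s n)) h) atTop (𝓝 (inner ℝ u h)) := by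
  let W : Submodule ℝ H := (Submodule.span ℝ (Set.range k)).topologicalClosure
  have hsep : TopologicalSpace.IsSeparable (W : Set H) := by
    have h1 : TopologicalSpace.IsSeparable (Set.range k) :=
      (Set.countable_range k).isSeparable
    have h2 := h1.span (R := ℝ)
    exact h2.closure
  have : TopologicalSpace.SeparableSpace W := hsep.separableSpace
  have hcl : IsClosed (W : Set H) := Submodule.isClosed_topologicalClosure _
  have : CompleteSpace W := hcl.completeSpace_coe
  have ha : ∀ j, k j ∈ W := fun j =>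
    Submodule.le_topologicalClosure _ (Submodule.subset_span ⟨j, rfl⟩)
  obtain ⟨w0, s, hs, hlim⟩ := seq_weakstar W (fun n => InnerProductSpace.toDualMap ℝ H (k n)) C
    (fun n => by rw [LinearIsometry.norm_map]; exact hk n)
  refine ⟨W.starProjection ((InnerProductSpace.toDual ℝ H).symm w0), s, hs, fun h => ?_⟩
  have h1 := hlim (W.starProjection h) (W.starProjection_apply_mem h)
  simp only [InnerProductSpace.toDualMap_apply_apply] at h1
  have h2 : ∀ n, inner ℝ (k (s n)) (W.starProjection h) = inner ℝ (k (s n)) h := by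
    intro n
    rw [← Submodule.inner_starProjection_left_eq_right,
      Submodule.starProjection_eq_self_iff.mpr (ha _)]
  simp only [h2] at h1
  rw [Submodule.inner_starProjection_left_eq_right, InnerProductSpace.toDual_symm_apply]
  exact h1

/-- weak sequential compactness of uniformly bounded sequences of functions. -/
theorem weak_seq_fun {Ω : Type*} [MeasurableSpace Ω] {μ : Measure Ω} [IsFiniteMeasure μ]
    (h : ℕ → Ω → ℝ) (C : ℝ) (hm : ∀ n, AEStronglyMeasurable (h n) μ)
    (hb : ∀ n, ∀ᵐ ω ∂μ, |h n ω| ≤ C) :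
    ∃ (u : Ω → ℝ) (s : ℕ → ℕ), StrictMono s ∧ MemLp u 2 μ ∧ Measurable u ∧
      ∀ b : Ω → ℝ, MemLp b 2 μ →
        Tendsto (fun n => ∫ ω, h (s n) ω * b ω ∂μ) atTop (𝓝 (∫ ω, u ω * b ω ∂μ)) := by
  have hmem : ∀ n, MemLp (h n) 2 μ := fun n =>
    MemLp.of_bound (hm n) C (by
      filter_upwards [hb n] with ω hω
      rw [Real.norm_eq_abs]
      exact hω)
  let k : ℕ → Lp ℝ 2 μ := fun n => (hmem n).toLp (h n)
  have hkb : ∃ C', ∀ n, ‖k n‖ ≤ C' := by
    refine ⟨(μ.real Set.univ) ^ ((2 : ENNReal).toReal⁻¹) * |C|, fun n => ?_⟩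
    refine Lp.norm_le_of_ae_bound (abs_nonneg C) ?_
    filter_upwards [hb n, (hmem n).coeFn_toLp] with ω hω hω2
    rw [hω2, Real.norm_eq_abs]
    exact hω.trans (le_abs_self C)
  obtain ⟨C', hC'⟩ := hkb
  obtain ⟨u, s, hs, hlim⟩ := weak_seq k C' hC'
  obtain ⟨u', hu'm, hu'⟩ := (Lp.memLp u).aestronglyMeasurable
  refine ⟨u', s, hs, (Lp.memLp u).ae_eq hu', hu'm.measurable, fun b hbm => ?_⟩
  have h1 := hlim (hbm.toLp b)
  have h2 : ∀ n, inner ℝ (k (s n)) (hbm.toLp b) = ∫ ω, h (s n) ω * b ω ∂μ := by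
    intro n
    rw [MeasureTheory.L2.inner_def]
    refine integral_congr_ae ?_
    filter_upwards [(hmem (s n)).coeFn_toLp, hbm.coeFn_toLp] with ω h3 h4
    simp only [k]
    rw [h3, h4]
    simp [mul_comm]
  have h3 : inner ℝ u (hbm.toLp b) = ∫ ω, u' ω * b ω ∂μ := by
    rw [MeasureTheory.L2.inner_def]
    refine integral_congr_ae ?_
    filter_upwards [hu', hbm.coeFn_toLp] with ω h3 h4
    rw [h3, h4]
    simp [mul_comm]
  simp only [h2] at h1
  rw [h3] at h1
  exact h1

end PU
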