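import Mathlib

set_option autoImplicit false
set_option maxSynthPendingDepth 3

open Filter Topology MeasureTheory Function

namespace PU

/-- a scalarly measurable function is dominated, scalar by scalar, by one finite measurable
function. -/
theorem exists_bound {X : Type*} [NormedAddCommGroup X] [NormedSpace ℝ X]
    {Ω : Type*} [MeasurableSpace Ω] {μ : Measure Ω} [IsFiniteMeasure μ] (f : Ω → X)
    (hi : ∀ φ : X →L[ℝ] ℝ, Integrable (fun ω => φ (f ω)) μ) :
    ∃ g : Ω → ℕ, Measurable g ∧ ∀ φ : X →L[ℝ] ℝ, ∀ᵐ ω ∂μ, |φ (f ω)| ≤ ‖φ‖ * g ω := by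
  classical
  let B : ℕ → Set Ω := fun k => {ω | ‖f ω‖ ≤ (k : ℝ) + 1}
  let H : ℕ → Set Ω := fun k => toMeasurable μ (B k)
  have hH : ∀ k, MeasurableSet (H k) := fun k => measurableSet_toMeasurable μ _
  have hcov : ∀ ω, ∃ k, ω ∈ H k := by
    intro ω
    obtain ⟨k, hk⟩ := exists_nat_ge ‖f ω‖
    refine ⟨k, subset_toMeasurable μ _ ?_⟩
    change ‖f ω‖ ≤ (k : ℝ) + 1
    linarith
  refine ⟨fun ω => Nat.find (hcov ω) + 1, ?_, fun φ => ?_⟩
  · exact (measurable_find hcov hH).add_const 1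
  · have h1 : ∀ k, ∀ᵐ ω ∂μ, ω ∈ H k → |φ (f ω)| ≤ ‖φ‖ * ((k : ℝ) + 1) := by
      intro k
      obtain ⟨φ', hφ'm, hφ'⟩ := (hi φ).aestronglyMeasurable
      let S : Set Ω := {ω | ‖φ‖ * ((k : ℝ) + 1) < |φ' ω|}
      have hS : MeasurableSet S :=
        measurableSet_lt measurable_const hφ'm.norm.measurable
      have h2 : μ (B k ∩ S) = 0 := by
        refine measure_mono_null (t := {ω | ¬ φ (f ω) = φ' ω}) ?_ hφ'
        rintro ω ⟨hω1, hω2⟩ heq
        have h3 : |φ (f ω)| ≤ ‖φ‖ * ((k : ℝ) + 1) := by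
          calc |φ (f ω)| = ‖φ (f ω)‖ := rfl
            _ ≤ ‖φ‖ * ‖f ω‖ := φ.le_opNorm _
            _ ≤ _ := by
              gcongr
              exact hω1
        have h4 : ‖φ‖ * ((k : ℝ) + 1) < |φ' ω| := hω2
        rw [← heq] at h4
        linarith
      have h3 : μ (H k ∩ S) = 0 := by
        rw [← h2]
        exact Measure.measure_toMeasurable_inter hS (measure_ne_top μ _)
      have h4 : ∀ᵐ ω ∂μ, ω ∉ H k ∩ S := measure_eq_zero_iff_ae_notMem.mp h3
      filter_upwards [h4, hφ'] with ω hω1 hω2 hω3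
      by_contra hcon
      rw [not_le, hω2] at hcon
      exact hω1 ⟨hω3, hcon⟩
    rw [← ae_all_iff] at h1
    filter_upwards [h1] with ω hω
    have := hω _ (Nat.find_spec (hcov ω))
    push_cast
    exact this

end PU
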