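import Mathlib
import Pool.Agent.Lib_helper59.PU.Tail
import Pool.Agent.Lib_helper59.PU.Bound

set_option autoImplicit false
set_option maxSynthPendingDepth 3

open Filter Topology MeasureTheory Function

namespace PU

section

variable {X : Type*} [NormedAddCommGroup X] [NormedSpace ℝ X]
    {Ω : Type*} [MeasurableSpace Ω] {μ : Measure Ω}

/-- small tails, with the bound function `g`. -/
theorem tails (f : Ω → X) (hi : ∀ φ : X →L[ℝ] ℝ, Integrable (fun ω => φ (f ω)) μ)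
    (hP : ∀ A : Set Ω, MeasurableSet A → ∃ v : X, ∀ φ : X →L[ℝ] ℝ, φ v = ∫ ω in A, φ (f ω) ∂μ)
    (g : Ω → ℕ) (hg : Measurable g) (ε : ℝ) (hε : 0 < ε) :
    ∃ m : ℕ, ∀ φ : X →L[ℝ] ℝ, ‖φ‖ ≤ 1 → ∫ ω in {ω | g ω ≤ m}ᶜ, |φ (f ω)| ∂μ ≤ ε := by
  have hC : ∀ n : ℕ, MeasurableSet ({ω | g ω ≤ n}ᶜ) := fun n =>
    (measurableSet_le hg measurable_const).compl
  refine small_tails f hi hP (fun n => {ω | g ω ≤ n}ᶜ) hC ?_ ?_ ε hε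
  · intro a b hab ω hω
    simp only [Set.mem_compl_iff, Set.mem_ofPred_eq, not_le] at hω ⊢
    exact lt_of_le_of_lt hab hω
  · rw [Set.eq_empty_iff_forall_notMem]
    intro ω hω
    have h1 := Set.mem_iInter.mp hω (g ω)
    simp at h1

/-- approximation of the whole absolute integral. -/
theorem total_le (f : Ω → X) (hi : ∀ φ : X →L[ℝ] ℝ, Integrable (fun ω => φ (f ω)) μ)
    (D : Set Ω) (hD : MeasurableSet D) (φ ψ : X →L[ℝ] ℝ) (a b c : ℝ)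
    (h1 : ∫ ω in D, |φ (f ω) - ψ (f ω)| ∂μ ≤ a) (h2 : ∫ ω in Dᶜ, |φ (f ω)| ∂μ ≤ b)
    (h3 : ∫ ω in Dᶜ, |ψ (f ω)| ∂μ ≤ c) : ∫ ω, |φ (f ω) - ψ (f ω)| ∂μ ≤ a + b + c := by
  have hint : Integrable (fun ω => |φ (f ω) - ψ (f ω)|) μ := ((hi φ).sub (hi ψ)).abs
  rw [← integral_add_compl hD hint]
  have h4 : ∫ ω in Dᶜ, |φ (f ω) - ψ (f ω)| ∂μ ≤
      (∫ ω in Dᶜ, |φ (f ω)| ∂μ) + ∫ ω in Dᶜ, |ψ (f ω)| ∂μ := by
    rw [← integral_add (hi φ).abs.integrableOn (hi ψ).abs.integrableOn]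
    refine integral_mono hint.integrableOn
      ((hi φ).abs.integrableOn.add (hi ψ).abs.integrableOn) fun ω => ?_
    exact abs_sub _ _
  linarith

/-- values of a difference of two functionals at an integral. -/
theorem val_le (f : Ω → X) (hi : ∀ φ : X →L[ℝ] ℝ, Integrable (fun ω => φ (f ω)) μ)
    (φ ψ : X →L[ℝ] ℝ) (A : Set Ω) (v : X) (hv : ∀ φ : X →L[ℝ] ℝ, φ v = ∫ ω in A, φ (f ω) ∂μ) :
    |φ v - ψ v| ≤ ∫ ω, |φ (f ω) - ψ (f ω)| ∂μ := by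
  rw [hv, hv, ← integral_sub (hi φ).integrableOn (hi ψ).integrableOn]
  calc |∫ ω in A, (φ (f ω) - ψ (f ω)) ∂μ| ≤ ∫ ω in A, |φ (f ω) - ψ (f ω)| ∂μ := by
        simpa using norm_integral_le_integral_norm (μ := μ.restrict A)
          (fun ω => φ (f ω) - ψ (f ω))
    _ ≤ ∫ ω, |φ (f ω) - ψ (f ω)| ∂μ := by
        refine setIntegral_le_integral ((hi φ).sub (hi ψ)).abs ?_
        filter_upwards with ω
        exact abs_nonneg _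

theorem totallyBounded_range (f : Ω → X)
    (hi : ∀ φ : X →L[ℝ] ℝ, Integrable (fun ω => φ (f ω)) μ)
    (hP : ∀ A : Set Ω, MeasurableSet A → ∃ v : X, ∀ φ : X →L[ℝ] ℝ, φ v = ∫ ω in A, φ (f ω) ∂μ)
    (g : Ω → ℕ) (hg : Measurable g)
    (h : ∀ m : ℕ, ∀ δ > (0 : ℝ), ∃ F : Finset (X →L[ℝ] ℝ), (∀ ψ ∈ F, ‖ψ‖ ≤ 1) ∧
      ∀ φ : X →L[ℝ] ℝ, ‖φ‖ ≤ 1 → ∃ ψ ∈ F, ∫ ω in {ω | g ω ≤ m}, |ψ (f ω) - φ (f ω)| ∂μ < δ) :
    TotallyBounded {v : X | ∃ A : Set Ω, MeasurableSet A ∧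
      ∀ φ : X →L[ℝ] ℝ, φ v = ∫ ω in A, φ (f ω) ∂μ} := by
  classical
  set R : Set X := {v : X | ∃ A : Set Ω, MeasurableSet A ∧
      ∀ φ : X →L[ℝ] ℝ, φ v = ∫ ω in A, φ (f ω) ∂μ} with hR
  rw [Metric.totallyBounded_iff]
  intro ε hε
  obtain ⟨m, hm⟩ := tails f hi hP g hg (ε / 32) (by positivity)
  obtain ⟨F, hF1, hF2⟩ := h m (ε / 16) (by positivity)
  let Θ : X → (F → ℝ) := fun v ψ => ψ.1 v
  have hbd : Bornology.IsBounded (Θ '' R) := by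
    rw [isBounded_iff_forall_norm_le]
    refine ⟨∑ ψ ∈ F, ∫ ω, |ψ (f ω)| ∂μ, ?_⟩
    rintro _ ⟨v, ⟨A, hA, hv⟩, rfl⟩
    rw [pi_norm_le_iff_of_nonneg (Finset.sum_nonneg fun ψ _ =>
      integral_nonneg fun ω => abs_nonneg _)]
    intro ψ
    have h1 := val_le f hi ψ.1 0 A v hv
    simp only [_root_.zero_apply, sub_zero] at h1
    calc ‖Θ v ψ‖ = |ψ.1 v| := rfl
      _ ≤ ∫ ω, |ψ.1 (f ω)| ∂μ := h1
      _ ≤ _ := Finset.single_le_sum (f := fun ψ : X →L[ℝ] ℝ => ∫ ω, |ψ (f ω)| ∂μ)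
          (fun ψ _ => integral_nonneg fun ω => abs_nonneg _) ψ.2
  have htb : TotallyBounded (Θ '' R) :=
    hbd.isCompact_closure.totallyBounded.subset subset_closure
  obtain ⟨t, htS, htf, ht⟩ := totallyBounded_iff_subset.mp htb _
    (Metric.dist_mem_uniformity (show 0 < ε / 4 by positivity))
  have htS' : ∀ y ∈ t, ∃ v : X, v ∈ R ∧ Θ v = y := fun y hy => htS hy
  choose! p hp1 hp2 using htS'
  refine ⟨p '' t, htf.image _, fun v hv => ?_⟩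
  obtain ⟨y, hy, hvy⟩ := Set.mem_iUnion₂.mp (ht ⟨v, hv, rfl⟩)
  refine Set.mem_iUnion₂.mpr ⟨p y, ⟨y, hy, rfl⟩, ?_⟩
  have h1 : dist (Θ v) (Θ (p y)) < ε / 4 := by
    rw [hp2 y hy]
    exact hvy
  rw [Metric.mem_ball, dist_eq_norm]
  obtain ⟨φ, hφ1, hφ2⟩ := exists_dual_vector'' ℝ (v - p y)
  have hφ2' : φ (v - p y) = ‖v - p y‖ := hφ2
  obtain ⟨ψ, hψ, hψ'⟩ := hF2 φ hφ1
  have h2 : |ψ v - ψ (p y)| < ε / 4 := by
    have := lt_of_le_of_lt (dist_le_pi_dist (Θ v) (Θ (p y)) ⟨ψ, hψ⟩) h1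
    rw [Real.dist_eq] at this
    exact this
  have h3 : ∫ ω, |ψ (f ω) - φ (f ω)| ∂μ ≤ ε / 16 + ε / 32 + ε / 32 :=
    total_le f hi {ω | g ω ≤ m} (measurableSet_le hg measurable_const) ψ φ _ _ _ hψ'.le
      (hm ψ (hF1 ψ hψ)) (hm φ hφ1)
  obtain ⟨A, hA, hvA⟩ := hv
  obtain ⟨A', hA', hvA'⟩ := hp1 y hy
  have h4 := (val_le f hi ψ φ A v hvA).trans h3
  have h5 := (val_le f hi ψ φ A' (p y) hvA').trans h3
  rw [← hφ2', map_sub]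
  have := abs_le.mp h4
  have := abs_le.mp h5
  have := abs_lt.mp h2
  linarith

/-- a separated sequence of functionals. -/
theorem exists_separated (f : Ω → X)
    (hi : ∀ φ : X →L[ℝ] ℝ, Integrable (fun ω => φ (f ω)) μ)
    (hP : ∀ A : Set Ω, MeasurableSet A → ∃ v : X, ∀ φ : X →L[ℝ] ℝ, φ v = ∫ ω in A, φ (f ω) ∂μ)
    (g : Ω → ℕ) (hg : Measurable g)
    (h : ¬ TotallyBounded {v : X | ∃ A : Set Ω, MeasurableSet A ∧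
      ∀ φ : X →L[ℝ] ℝ, φ v = ∫ ω in A, φ (f ω) ∂μ}) :
    ∃ (m : ℕ) (δ : ℝ), 0 < δ ∧ ∃ x : ℕ → (X →L[ℝ] ℝ), (∀ n, ‖x n‖ ≤ 1) ∧
      ∀ i j, i < j → δ ≤ ∫ ω in {ω | g ω ≤ m}, |x i (f ω) - x j (f ω)| ∂μ := by
  have h1 : ¬ (∀ m : ℕ, ∀ δ > (0 : ℝ), ∃ F : Finset (X →L[ℝ] ℝ), (∀ ψ ∈ F, ‖ψ‖ ≤ 1) ∧
      ∀ φ : X →L[ℝ] ℝ, ‖φ‖ ≤ 1 → ∃ ψ ∈ F, ∫ ω in {ω | g ω ≤ m}, |ψ (f ω) - φ (f ω)| ∂μ < δ) :=
    fun hcon => h (totallyBounded_range f hi hP g hg hcon)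
  push Not at h1
  obtain ⟨m, δ, hδ, hF⟩ := h1
  refine ⟨m, δ, hδ, ?_⟩
  exact exists_seq_of_forall_finset_exists (fun x : X →L[ℝ] ℝ => ‖x‖ ≤ 1)
    (fun x y => δ ≤ ∫ ω in {ω | g ω ≤ m}, |x (f ω) - y (f ω)| ∂μ) (fun s hs => hF s hs)

end

end PU
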