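import Mathlib
import Pool.Agent.Lib_helper59.PT.Ultra
import Pool.Agent.Lib_helper59.PU.Net
import Pool.Agent.Lib_helper59.PU.Hilbert

set_option autoImplicit false
set_option maxSynthPendingDepth 3

open Filter Topology MeasureTheory Function

namespace PU

/-- choice of a subsequence all of whose sign patterns have positive measure. -/
theorem exists_indep {Ω : Type*} [MeasurableSpace Ω] (μ : Measure Ω) (ρ : ℕ → Ω → ℝ)
    (hρ : ∀ n, Measurable (ρ n)) (A0 : Set Ω) (hA0 : MeasurableSet A0) (h0 : 0 < μ A0) (η : ℝ)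
    (H : ∀ A : Set Ω, MeasurableSet A → A ⊆ A0 → 0 < μ A →
      ∀ᶠ n in atTop, 0 < μ (A ∩ {ω | η < ρ n ω}) ∧ 0 < μ (A ∩ {ω | ρ n ω < -η})) :
    ∃ n : ℕ → ℕ, StrictMono n ∧ ∀ (F : Finset ℕ) (σ : ℕ → ℝ), (∀ j, σ j = 1 ∨ σ j = -1) →
      0 < μ (A0 ∩ {ω | ∀ j ∈ F, η < σ j * ρ (n j) ω}) := by
  classical
  let S : Finset ℕ → Finset ℕ → Set Ω := fun F T =>
    A0 ∩ ⋂ j ∈ F, (if j ∈ T then {ω | η < ρ j ω} else {ω | ρ j ω < -η})
  have hS : ∀ F T, MeasurableSet (S F T) := by
    intro F T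
    refine hA0.inter (Finset.measurableSet_biInter F fun j _ => ?_)
    by_cases hj : j ∈ T
    · simp only [hj, if_true]
      exact measurableSet_lt measurable_const (hρ j)
    · simp only [hj, if_false]
      exact measurableSet_lt (hρ j) measurable_const
  let good : Finset ℕ → Prop := fun F => ∀ T ∈ F.powerset, 0 < μ (S F T)
  have hstep : ∀ F : {F : Finset ℕ // good F}, ∃ n, (∀ j ∈ F.1, j < n) ∧ good (insert n F.1) := by
    rintro ⟨F, hF⟩
    have h1 : ∀ᶠ n in atTop, ∀ T ∈ F.powerset,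
        0 < μ (S F T ∩ {ω | η < ρ n ω}) ∧ 0 < μ (S F T ∩ {ω | ρ n ω < -η}) := by
      rw [Filter.eventually_all_finset]
      intro T hT
      exact H (S F T) (hS F T) Set.inter_subset_left (hF T hT)
    have h2 : ∀ᶠ n in atTop, ∀ j ∈ F, j < n := by
      rw [Filter.eventually_all_finset]
      intro j _
      exact eventually_gt_atTop j
    obtain ⟨n, hn1, hn2⟩ := (h1.and h2).exists
    refine ⟨n, hn2, fun T hT => ?_⟩
    have hnF : n ∉ F := fun h => lt_irrefl _ (hn2 n h)
    have hT' : T.erase n ∈ F.powerset := by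
      rw [Finset.mem_powerset] at hT ⊢
      intro j hj
      have h3 := hT (Finset.mem_of_mem_erase hj)
      rw [Finset.mem_insert] at h3
      rcases h3 with h3 | h3
      · exact absurd h3 (Finset.ne_of_mem_erase hj)
      · exact h3
    have h4 := hn1 _ hT'
    have key : ∀ ω, ω ∈ S F (T.erase n) → ∀ j ∈ F,
        ω ∈ (if j ∈ T then {ω | η < ρ j ω} else {ω | ρ j ω < -η} : Set Ω) := by
      intro ω hω j hj
      have h5 := Set.mem_iInter₂.mp hω.2 j hj
      have hjn : j ≠ n := fun h => hnF (h ▸ hj)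
      have h6 : j ∈ T.erase n ↔ j ∈ T := by simp [hjn]
      simpa only [h6] using h5
    by_cases hnT : n ∈ T
    · refine lt_of_lt_of_le h4.1 (measure_mono ?_)
      rintro ω ⟨hω1, hω2⟩
      refine ⟨hω1.1, Set.mem_iInter₂.mpr fun j hj => ?_⟩
      rw [Finset.mem_insert] at hj
      rcases hj with rfl | hj
      · simp only [hnT, if_true]
        exact hω2
      · exact key ω hω1 j hj
    · refine lt_of_lt_of_le h4.2 (measure_mono ?_)
      rintro ω ⟨hω1, hω2⟩
      refine ⟨hω1.1, Set.mem_iInter₂.mpr fun j hj => ?_⟩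
      rw [Finset.mem_insert] at hj
      rcases hj with rfl | hj
      · simp only [hnT, if_false]
        exact hω2
      · exact key ω hω1 j hj
  choose nn hnn1 hnn2 using hstep
  have hgood0 : good ∅ := by
    intro T hT
    simpa [S] using h0
  let G : ℕ → {F : Finset ℕ // good F} := fun k =>
    Nat.rec ⟨∅, hgood0⟩ (fun _ F => ⟨insert (nn F) F.1, hnn2 F⟩) k
  have hG : ∀ k, (G (k + 1)).1 = insert (nn (G k)) (G k).1 := fun k => rfl
  let n : ℕ → ℕ := fun k => nn (G k)
  have hn : StrictMono n := strictMono_nat_of_lt_succ fun k => by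
    refine hnn1 (G (k + 1)) _ ?_
    rw [hG]
    exact Finset.mem_insert_self _ _
  have hmem : ∀ K j, j < K → n j ∈ (G K).1 := by
    intro K
    induction K with
    | zero => intro j hj; omega
    | succ K ih =>
      intro j hj
      rw [hG, Finset.mem_insert]
      rcases Nat.lt_succ_iff_lt_or_eq.mp hj with h | rfl
      · exact Or.inr (ih j h)
      · exact Or.inl rfl
  refine ⟨n, hn, fun F σ hσ => ?_⟩
  obtain ⟨K, hK⟩ : ∃ K, ∀ j ∈ F, j < K := ⟨F.sup id + 1, fun j hj =>
    Nat.lt_succ_of_le (Finset.le_sup (f := id) hj)⟩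
  let T : Finset ℕ := (G K).1.filter fun i => ∃ j ∈ F, n j = i ∧ σ j = 1
  have hT : 0 < μ (S (G K).1 T) := (G K).2 T (by
    rw [Finset.mem_powerset]
    exact Finset.filter_subset _ _)
  refine lt_of_lt_of_le hT (measure_mono ?_)
  rintro ω ⟨hω1, hω2⟩
  refine ⟨hω1, fun j hj => ?_⟩
  have h1 := Set.mem_iInter₂.mp hω2 (n j) (hmem K j (hK j hj))
  rcases hσ j with h | h
  · have h2 : n j ∈ T := by
      rw [Finset.mem_filter]
      exact ⟨hmem K j (hK j hj), j, hj, rfl, h⟩
    simp only [h2, if_true] at h1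
    rw [h, one_mul]
    exact h1
  · have h2 : n j ∉ T := by
      rw [Finset.mem_filter]
      rintro ⟨-, j', hj', h3, h4⟩
      rw [hn.injective h3, h] at h4
      norm_num at h4
    simp only [h2, if_false] at h1
    have h3 : ρ (n j) ω < -η := h1
    rw [h]
    linarith

/-- a bounded sequence of functionals has a subsequence converging on the integrals. -/
theorem weakly_conv {X : Type*} [NormedAddCommGroup X] [NormedSpace ℝ X]
    {Ω : Type*} [MeasurableSpace Ω] {μ : Measure Ω} [IsFiniteMeasure μ] (f : Ω → X)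
    (hi : ∀ φ : X →L[ℝ] ℝ, Integrable (fun ω => φ (f ω)) μ)
    (hP : ∀ A : Set Ω, MeasurableSet A → ∃ v : X, ∀ φ : X →L[ℝ] ℝ, φ v = ∫ ω in A, φ (f ω) ∂μ)
    (g : Ω → ℕ) (hg : Measurable g)
    (hgb : ∀ φ : X →L[ℝ] ℝ, ∀ᵐ ω ∂μ, |φ (f ω)| ≤ ‖φ‖ * g ω)
    (x : ℕ → (X →L[ℝ] ℝ)) (hx : ∀ n, ‖x n‖ ≤ 1) :
    ∃ (s : ℕ → ℕ) (x0 : X →L[ℝ] ℝ), StrictMono s ∧ ‖x0‖ ≤ 1 ∧
      ∀ (A : Set Ω) (v : X), MeasurableSet A → (∀ φ : X →L[ℝ] ℝ, φ v = ∫ ω in A, φ (f ω) ∂μ) →
        Tendsto (fun n => x (s n) v) atTop (𝓝 (x0 v)) := by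
  classical
  have hgm : Measurable (fun ω => (g ω : ℝ)) := measurable_from_top.comp hg
  let h : ℕ → Ω → ℝ := fun n ω => x n (f ω) / g ω
  have hm : ∀ n, AEStronglyMeasurable (h n) μ := fun n =>
    ((hi (x n)).aestronglyMeasurable.aemeasurable.div hgm.aemeasurable).aestronglyMeasurable
  have hxg : ∀ n, ∀ᵐ ω ∂μ, |x n (f ω)| ≤ g ω := by
    intro n
    filter_upwards [hgb (x n)] with ω hω
    calc |x n (f ω)| ≤ ‖x n‖ * g ω := hω
      _ ≤ 1 * g ω := by
        gcongr
        exact hx n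
      _ = g ω := one_mul _
  have hb : ∀ n, ∀ᵐ ω ∂μ, |h n ω| ≤ 1 := by
    intro n
    filter_upwards [hxg n] with ω hω
    simp only [h, abs_div, Nat.abs_cast]
    exact div_le_one_of_le₀ hω (Nat.cast_nonneg _)
  have hhg : ∀ n, ∀ᵐ ω ∂μ, h n ω * g ω = x n (f ω) := by
    intro n
    filter_upwards [hxg n] with ω hω
    by_cases h0 : (g ω : ℝ) = 0
    · rw [h0] at hω
      have : x n (f ω) = 0 := abs_nonpos_iff.mp hω
      simp [h, this]
    · simp only [h]
      rw [div_mul_cancel₀ _ h0]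
  obtain ⟨u, s, hs, -, -, hlim⟩ := weak_seq_fun h 1 hm hb
  have hU : (hyperfilter ℕ : Filter ℕ) ≤ atTop := Nat.hyperfilter_le_atTop
  obtain ⟨x0, hx01, hx02⟩ := PT.exists_clm (hyperfilter ℕ) (fun n z => x (s n) z) 1 zero_le_one
    (by
      intro z ε hε
      filter_upwards with i
      calc |x (s i) z| = ‖x (s i) z‖ := rfl
        _ ≤ ‖x (s i)‖ * ‖z‖ := (x (s i)).le_opNorm _
        _ ≤ 1 * ‖z‖ := by
          gcongr
          exact hx _
        _ ≤ 1 * ‖z‖ + ε := by linarith)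
    (by
      intro z z'
      have : (fun i => x (s i) z + x (s i) z' - x (s i) (z + z')) = fun _ => (0 : ℝ) := by
        funext i
        rw [map_add]
        ring
      rw [this]
      exact tendsto_const_nhds)
  refine ⟨s, x0, hs, hx01, fun A v hA hv => ?_⟩
  have key : ∀ ε > (0 : ℝ), ∃ c : ℝ, ∀ᶠ n in atTop, |x (s n) v - c| < ε := by
    intro ε hε
    obtain ⟨m, hm'⟩ := tails f hi hP g hg (ε / 2) (by positivity)
    have hD : MeasurableSet {ω | g ω ≤ m} := measurableSet_le hg measurable_const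
    let b : Ω → ℝ := (A ∩ {ω | g ω ≤ m}).indicator fun ω => (g ω : ℝ)
    have hbm : MemLp b 2 μ := by
      refine MemLp.of_bound ((hgm.indicator (hA.inter hD)).aestronglyMeasurable) m ?_
      filter_upwards with ω
      by_cases hω : ω ∈ A ∩ {ω | g ω ≤ m}
      · simp only [b, Set.indicator_of_mem hω, Real.norm_natCast, Nat.cast_le]
        exact hω.2
      · simp only [b, Set.indicator_of_notMem hω, norm_zero]
        positivity
    have h1 := hlim b hbm
    refine ⟨∫ ω, u ω * b ω ∂μ, ?_⟩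
    have h2 : ∀ n, |x (s n) v - ∫ ω, h (s n) ω * b ω ∂μ| ≤ ε / 2 := by
      intro n
      have e1 : ∫ ω, h (s n) ω * b ω ∂μ = ∫ ω in A ∩ {ω | g ω ≤ m}, x (s n) (f ω) ∂μ := by
        rw [← integral_indicator (hA.inter hD)]
        refine integral_congr_ae ?_
        filter_upwards [hhg (s n)] with ω hω
        by_cases hω' : ω ∈ A ∩ {ω | g ω ≤ m}
        · simp only [b, Set.indicator_of_mem hω']
          exact hω
        · simp only [b, Set.indicator_of_notMem hω', mul_zero]
      have e2 : x (s n) v = (∫ ω in A ∩ {ω | g ω ≤ m}, x (s n) (f ω) ∂μ) +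
          ∫ ω in A ∩ {ω | g ω ≤ m}ᶜ, x (s n) (f ω) ∂μ := by
        rw [hv, ← setIntegral_union]
        · rw [← Set.inter_union_distrib_left, Set.union_compl_self, Set.inter_univ]
        · exact (disjoint_compl_right).mono Set.inter_subset_right Set.inter_subset_right
        · exact hA.inter hD.compl
        · exact (hi _).integrableOn
        · exact (hi _).integrableOn
      rw [e1, e2, add_sub_cancel_left]
      calc |∫ ω in A ∩ {ω | g ω ≤ m}ᶜ, x (s n) (f ω) ∂μ|
          ≤ ∫ ω in A ∩ {ω | g ω ≤ m}ᶜ, |x (s n) (f ω)| ∂μ := by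
            simpa using norm_integral_le_integral_norm (μ := μ.restrict (A ∩ {ω | g ω ≤ m}ᶜ))
              (fun ω => x (s n) (f ω))
        _ ≤ ∫ ω in {ω | g ω ≤ m}ᶜ, |x (s n) (f ω)| ∂μ := by
            refine setIntegral_mono_set (hi _).abs.integrableOn ?_ ?_
            · filter_upwards with ω
              exact abs_nonneg _
            · exact (Set.inter_subset_right).eventuallyLE
        _ ≤ ε / 2 := hm' _ (hx _)
    have h3 : ∀ᶠ n in atTop, |(∫ ω, h (s n) ω * b ω ∂μ) - ∫ ω, u ω * b ω ∂μ| < ε / 2 := by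
      have h4 := Metric.tendsto_nhds.mp h1 (ε / 2) (by positivity)
      simpa only [Real.dist_eq] using h4
    filter_upwards [h3] with n hn
    have h5 := h2 n
    have := abs_le.mp h5
    have := abs_lt.mp hn
    rw [abs_lt]
    constructor <;> linarith
  rw [Metric.tendsto_nhds]
  intro ε hε
  obtain ⟨c, hc⟩ := key (ε / 2) (by positivity)
  have h1 : |x0 v - c| ≤ ε / 2 := by
    have h2 := ((hx02 v).sub_const c).abs
    refine le_of_tendsto h2 ?_
    exact (hc.filter_mono hU).mono fun n hn => hn.le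
  filter_upwards [hc] with n hn
  rw [Real.dist_eq]
  have := abs_le.mp h1
  have := abs_lt.mp hn
  rw [abs_lt]
  constructor <;> linarith

end PU
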