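import Mathlib
import Pool.Agent.Lib_helper59.PU.Seq

set_option autoImplicit false
set_option maxSynthPendingDepth 3

open Filter Topology MeasureTheory Function

namespace PU

section

variable {X : Type*} [NormedAddCommGroup X] [NormedSpace ℝ X]
    {Ω : Type*} [MeasurableSpace Ω] {μ : Measure Ω} [IsFiniteMeasure μ]

/-- positive measure of a superlevel set. -/
theorem superlevel (a : Ω → ℝ) (ha : Integrable a μ) (A : Set Ω)
    (c : ℝ) (h : c * μ.real A < ∫ ω in A, a ω ∂μ) (hA : MeasurableSet A) :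
    0 < μ (A ∩ {ω | c < a ω}) := by
  rw [pos_iff_ne_zero]
  intro h0
  have h1 : ∀ᵐ ω ∂μ, ω ∉ A ∩ {ω | c < a ω} := measure_eq_zero_iff_ae_notMem.mp h0
  have h2 : ∫ ω in A, a ω ∂μ ≤ ∫ ω in A, c ∂μ := by
    refine setIntegral_mono_on_ae ha.integrableOn (integrableOn_const (measure_ne_top μ A)) hA ?_
    filter_upwards [h1] with ω hω hωA
    by_contra hcon
    exact hω ⟨hωA, not_le.mp hcon⟩
  rw [setIntegral_const, smul_eq_mul] at h2
  linarith

theorem exists_base (f : Ω → X)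
    (hi : ∀ φ : X →L[ℝ] ℝ, Integrable (fun ω => φ (f ω)) μ)
    (hP : ∀ A : Set Ω, MeasurableSet A → ∃ v : X, ∀ φ : X →L[ℝ] ℝ, φ v = ∫ ω in A, φ (f ω) ∂μ)
    (g : Ω → ℕ) (hg : Measurable g)
    (hgb : ∀ φ : X →L[ℝ] ℝ, ∀ᵐ ω ∂μ, |φ (f ω)| ≤ ‖φ‖ * g ω)
    (h : ¬ TotallyBounded {v : X | ∃ A : Set Ω, MeasurableSet A ∧
      ∀ φ : X →L[ℝ] ℝ, φ v = ∫ ω in A, φ (f ω) ∂μ}) :
    ∃ (m : ℕ) (δ : ℝ) (φ : ℕ → (X →L[ℝ] ℝ)) (A0 : Set Ω) (η : ℝ), 0 < δ ∧ 0 < η ∧
      (∀ n, ‖φ n‖ ≤ 2) ∧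
      (∀ (A : Set Ω) (v : X), MeasurableSet A → (∀ φ : X →L[ℝ] ℝ, φ v = ∫ ω in A, φ (f ω) ∂μ) →
        Tendsto (fun n => φ n v) atTop (𝓝 0)) ∧
      (∀ n, δ ≤ ∫ ω in {ω | g ω ≤ m}, |φ n (f ω)| ∂μ) ∧ MeasurableSet A0 ∧
      A0 ⊆ {ω | g ω ≤ m} ∧ 0 < μ A0 ∧
      ∀ A : Set Ω, MeasurableSet A → A ⊆ A0 → 0 < μ A →
        ∀ᶠ n in atTop, 0 < μ (A ∩ {ω | η < φ n (f ω)}) ∧ 0 < μ (A ∩ {ω | φ n (f ω) < -η}) := by
  classical
  obtain ⟨m, δ, hδ, x, hx1, hx2⟩ := exists_separated f hi hP g hg h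
  set D : Set Ω := {ω | g ω ≤ m} with hDdef
  have hD : MeasurableSet D := measurableSet_le hg measurable_const
  obtain ⟨s, x0, hs, hx0, hconv⟩ := weakly_conv f hi hP g hg hgb x hx1
  let φ1 : ℕ → (X →L[ℝ] ℝ) := fun n => x (s n) - x0
  have hφ1n : ∀ n, ‖φ1 n‖ ≤ 2 := by
    intro n
    calc ‖φ1 n‖ ≤ ‖x (s n)‖ + ‖x0‖ := norm_sub_le _ _
      _ ≤ 1 + 1 := add_le_add (hx1 _) hx0
      _ = 2 := by norm_num
  have hφ1z : ∀ (A : Set Ω) (v : X), MeasurableSet A →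
      (∀ φ : X →L[ℝ] ℝ, φ v = ∫ ω in A, φ (f ω) ∂μ) →
        Tendsto (fun n => φ1 n v) atTop (𝓝 0) := by
    intro A v hA hv
    have h1 := (hconv A v hA hv).sub_const (x0 v)
    rw [sub_self] at h1
    exact h1
  -- separation
  have hsep : ∀ i j, i < j → δ ≤ (∫ ω in D, |φ1 i (f ω)| ∂μ) + ∫ ω in D, |φ1 j (f ω)| ∂μ := by
    intro i j hij
    have h1 := hx2 (s i) (s j) (hs hij)
    refine h1.trans ?_
    rw [← integral_add (hi (φ1 i)).abs.integrableOn (hi (φ1 j)).abs.integrableOn]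
    refine integral_mono ((hi (x (s i))).sub (hi (x (s j)))).abs.integrableOn
      ((hi (φ1 i)).abs.integrableOn.add (hi (φ1 j)).abs.integrableOn) fun ω => ?_
    have h2 := abs_sub (φ1 i (f ω)) (φ1 j (f ω))
    have h3 : φ1 i (f ω) - φ1 j (f ω) = x (s i) (f ω) - x (s j) (f ω) := by
      simp only [φ1, _root_.sub_apply]
      ring
    rw [h3] at h2
    exact h2
  obtain ⟨N, hN⟩ : ∃ N, ∀ n, δ / 2 ≤ ∫ ω in D, |φ1 (n + N) (f ω)| ∂μ := by
    by_cases hall : ∀ n, δ / 2 ≤ ∫ ω in D, |φ1 n (f ω)| ∂μ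
    · exact ⟨0, fun n => hall n⟩
    · push Not at hall
      obtain ⟨i, hi'⟩ := hall
      refine ⟨i + 1, fun n => ?_⟩
      have := hsep i (n + (i + 1)) (by omega)
      linarith
  -- second weak limit
  let a : ℕ → Ω → ℝ := fun n => D.indicator fun ω => |φ1 (n + N) (f ω)|
  have ham : ∀ n, AEStronglyMeasurable (a n) μ := fun n =>
    ((hi _).abs.aestronglyMeasurable).indicator hD
  have hab : ∀ n, ∀ᵐ ω ∂μ, |a n ω| ≤ 2 * m := by
    intro n
    filter_upwards [hgb (φ1 (n + N))] with ω hω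
    by_cases hωD : ω ∈ D
    · simp only [a, Set.indicator_of_mem hωD, abs_abs]
      calc _ ≤ ‖φ1 (n + N)‖ * g ω := hω
        _ ≤ 2 * m := by
          have h1 : (g ω : ℝ) ≤ m := by exact_mod_cast hωD
          have h2 := hφ1n (n + N)
          have h3 : (0 : ℝ) ≤ g ω := Nat.cast_nonneg _
          nlinarith [norm_nonneg (φ1 (n + N))]
    · simp only [a, Set.indicator_of_notMem hωD, abs_zero]
      positivity
  obtain ⟨u, s2, hs2, hu2, hum, hlim⟩ := weak_seq_fun a (2 * m) ham hab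
  have hui : Integrable u μ := hu2.integrable (by norm_num)
  have hlimA : ∀ A : Set Ω, MeasurableSet A → A ⊆ D →
      Tendsto (fun n => ∫ ω in A, |φ1 (s2 n + N) (f ω)| ∂μ) atTop (𝓝 (∫ ω in A, u ω ∂μ)) := by
    intro A hA hAD
    have h1 := hlim (A.indicator 1) (by
      refine MemLp.of_bound ((measurable_one.indicator hA).aestronglyMeasurable) 1 ?_
      filter_upwards with ω
      by_cases hω : ω ∈ A
      · simp [hω]
      · simp [hω])
    have h2 : ∀ n, ∫ ω, a (s2 n) ω * A.indicator 1 ω ∂μ =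
        ∫ ω in A, |φ1 (s2 n + N) (f ω)| ∂μ := by
      intro n
      rw [← integral_indicator hA]
      refine integral_congr_ae ?_
      filter_upwards with ω
      by_cases hω : ω ∈ A
      · simp [hω, a, hAD hω]
      · simp [hω]
    have h3 : ∫ ω, u ω * A.indicator 1 ω ∂μ = ∫ ω in A, u ω ∂μ := by
      rw [← integral_indicator hA]
      refine integral_congr_ae ?_
      filter_upwards with ω
      by_cases hω : ω ∈ A
      · simp [hω]
      · simp [hω]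
    simp only [h2] at h1
    rw [h3] at h1
    exact h1
  have huD : δ / 2 ≤ ∫ ω in D, u ω ∂μ :=
    ge_of_tendsto (hlimA D hD subset_rfl) (Eventually.of_forall fun n => hN _)
  set K : ℝ := μ.real Set.univ + 1 with hK
  have hKpos : 0 < K := by positivity
  set η' : ℝ := δ / (4 * K) with hη'
  have hη'pos : 0 < η' := by positivity
  have hAle : ∀ A : Set Ω, η' * μ.real A ≤ δ / 4 := by
    intro A
    have h1 : μ.real A ≤ K := (measureReal_mono (Set.subset_univ A)).trans (by linarith)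
    calc η' * μ.real A ≤ η' * K := by gcongr
      _ = δ / 4 := by
        rw [hη']
        field_simp
  let A0 : Set Ω := D ∩ {ω | η' < u ω}
  have hA0 : MeasurableSet A0 := hD.inter (measurableSet_lt measurable_const hum)
  have hA0pos : 0 < μ A0 := superlevel u hui D η' (by linarith [hAle D]) hD
  refine ⟨m, δ / 2, fun n => φ1 (s2 n + N), A0, η' / 4, by positivity, by positivity,
    fun n => hφ1n _, ?_, fun n => hN _, hA0, Set.inter_subset_left, hA0pos, ?_⟩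
  · intro A v hA hv
    have h1 := hφ1z A v hA hv
    have h2 : Tendsto (fun n => s2 n + N) atTop atTop :=
      tendsto_atTop_mono (fun n => Nat.le_add_right _ _) hs2.tendsto_atTop
    exact h1.comp h2
  · intro A hA hAA0 hApos
    have hAD : A ⊆ D := hAA0.trans Set.inter_subset_left
    have hAr : 0 < μ.real A := ENNReal.toReal_pos hApos.ne' (measure_ne_top μ A)
    have h1 := hlimA A hA hAD
    obtain ⟨v, hv⟩ := hP A hA
    have h2 : Tendsto (fun n => ∫ ω in A, φ1 (s2 n + N) (f ω) ∂μ) atTop (𝓝 0) := by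
      have h3 := hφ1z A v hA hv
      have h4 : Tendsto (fun n => s2 n + N) atTop atTop :=
        tendsto_atTop_mono (fun n => Nat.le_add_right _ _) hs2.tendsto_atTop
      have h5 := h3.comp h4
      refine h5.congr fun n => ?_
      simp only [Function.comp_apply]
      exact hv _
    have hlow : η' * μ.real A ≤ ∫ ω in A, u ω ∂μ := by
      have h3 : ∫ ω in A, η' ∂μ ≤ ∫ ω in A, u ω ∂μ := by
        refine setIntegral_mono_on (integrableOn_const (measure_ne_top μ A)) hui.integrableOn hA ?_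
        intro ω hω
        exact (hAA0 hω).2.le
      rw [setIntegral_const, smul_eq_mul, mul_comm] at h3
      exact h3
    have h3 := h1.add h2
    have h4 := h1.sub h2
    rw [add_zero] at h3
    rw [sub_zero] at h4
    have hlt : η' / 2 * μ.real A < ∫ ω in A, u ω ∂μ := by nlinarith
    filter_upwards [h3.eventually (lt_mem_nhds hlt), h4.eventually (lt_mem_nhds hlt)] with n hn1 hn2
    rw [← integral_add (hi _).abs.integrableOn (hi _).integrableOn] at hn1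
    rw [← integral_sub (hi _).abs.integrableOn (hi _).integrableOn] at hn2
    have e1 := superlevel (fun ω => |φ1 (s2 n + N) (f ω)| + φ1 (s2 n + N) (f ω))
      ((hi _).abs.add (hi _)) A (η' / 2) hn1 hA
    have e2 := superlevel (fun ω => |φ1 (s2 n + N) (f ω)| - φ1 (s2 n + N) (f ω))
      ((hi _).abs.sub (hi _)) A (η' / 2) hn2 hA
    refine ⟨lt_of_lt_of_le e1 (measure_mono ?_), lt_of_lt_of_le e2 (measure_mono ?_)⟩
    · rintro ω ⟨hω1, hω2⟩
      refine ⟨hω1, ?_⟩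
      have h5 : η' / 2 < |φ1 (s2 n + N) (f ω)| + φ1 (s2 n + N) (f ω) := hω2
      change η' / 4 < φ1 (s2 n + N) (f ω)
      rcases abs_cases (φ1 (s2 n + N) (f ω)) with ⟨h6, h7⟩ | ⟨h6, h7⟩
      · rw [h6] at h5
        linarith
      · rw [h6] at h5
        linarith
    · rintro ω ⟨hω1, hω2⟩
      refine ⟨hω1, ?_⟩
      have h5 : η' / 2 < |φ1 (s2 n + N) (f ω)| - φ1 (s2 n + N) (f ω) := hω2
      change φ1 (s2 n + N) (f ω) < -(η' / 4)
      rcases abs_cases (φ1 (s2 n + N) (f ω)) with ⟨h6, h7⟩ | ⟨h6, h7⟩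
      · rw [h6] at h5
        linarith
      · rw [h6] at h5
        linarith

/-- the sequence of functionals, with all sign patterns. -/
theorem exists_family (f : Ω → X)
    (hi : ∀ φ : X →L[ℝ] ℝ, Integrable (fun ω => φ (f ω)) μ)
    (hP : ∀ A : Set Ω, MeasurableSet A → ∃ v : X, ∀ φ : X →L[ℝ] ℝ, φ v = ∫ ω in A, φ (f ω) ∂μ)
    (g : Ω → ℕ) (hg : Measurable g)
    (hgb : ∀ φ : X →L[ℝ] ℝ, ∀ᵐ ω ∂μ, |φ (f ω)| ≤ ‖φ‖ * g ω)
    (h : ¬ TotallyBounded {v : X | ∃ A : Set Ω, MeasurableSet A ∧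
      ∀ φ : X →L[ℝ] ℝ, φ v = ∫ ω in A, φ (f ω) ∂μ}) :
    ∃ (m : ℕ) (δ : ℝ) (φ : ℕ → (X →L[ℝ] ℝ)) (A0 : Set Ω) (η : ℝ), 0 < δ ∧ 0 < η ∧
      (∀ n, ‖φ n‖ ≤ 2) ∧
      (∀ (A : Set Ω) (v : X), MeasurableSet A → (∀ φ : X →L[ℝ] ℝ, φ v = ∫ ω in A, φ (f ω) ∂μ) →
        Tendsto (fun n => φ n v) atTop (𝓝 0)) ∧
      (∀ n, δ ≤ ∫ ω in {ω | g ω ≤ m}, |φ n (f ω)| ∂μ) ∧ MeasurableSet A0 ∧
      A0 ⊆ {ω | g ω ≤ m} ∧
      ∀ (F : Finset ℕ) (σ : ℕ → ℝ), (∀ j, σ j = 1 ∨ σ j = -1) →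
        0 < μ (A0 ∩ {ω | ∀ j ∈ F, η < σ j * φ j (f ω)}) := by
  classical
  obtain ⟨m, δ, φ, A0, η, hδ, hη, hφ, hz, hbig, hA0, hA0D, hA0p, H⟩ :=
    exists_base f hi hP g hg hgb h
  have hrep := fun n => (hi (φ n)).aestronglyMeasurable
  choose ρ hρm hρ using hrep
  obtain ⟨n, hn, hpat⟩ := exists_indep μ ρ (fun n => (hρm n).measurable) A0 hA0 hA0p η (by
    intro A hA hAA0 hAp
    filter_upwards [H A hA hAA0 hAp] with k hk
    constructor
    · refine lt_of_lt_of_le hk.1 (le_of_eq (measure_congr ?_))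
      filter_upwards [hρ k] with ω hω
      refine propext (and_congr_right fun _ => ?_)
      change η < φ k (f ω) ↔ η < ρ k ω
      rw [hω]
    · refine lt_of_lt_of_le hk.2 (le_of_eq (measure_congr ?_))
      filter_upwards [hρ k] with ω hω
      refine propext (and_congr_right fun _ => ?_)
      change φ k (f ω) < -η ↔ ρ k ω < -η
      rw [hω])
  refine ⟨m, δ, fun j => φ (n j), A0, η, hδ, hη, fun j => hφ _, ?_, fun j => hbig _, hA0, hA0D,
    fun F σ hσ => ?_⟩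
  · intro A v hA hv
    exact (hz A v hA hv).comp hn.tendsto_atTop
  · refine lt_of_lt_of_le (hpat F σ hσ) (le_of_eq (measure_congr ?_))
    have hall : ∀ᵐ ω ∂μ, ∀ k, φ k (f ω) = ρ k ω := ae_all_iff.mpr fun k => hρ k
    filter_upwards [hall] with ω hω
    refine propext (and_congr_right fun _ => ?_)
    change (∀ j ∈ F, η < σ j * ρ (n j) ω) ↔ (∀ j ∈ F, η < σ j * φ (n j) (f ω))
    simp only [hω]

end

end PU
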