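import Mathlib
import Pool.Agent.Lib_helper59.PU.Base

set_option autoImplicit false
set_option maxSynthPendingDepth 3

open Filter Topology MeasureTheory Function

open scoped ZeroAtInfty

namespace PU

/-- a null sequence, as an element of the Banach space of null sequences. -/
noncomputable def c0 (u : ℕ → ℝ) (hu : Tendsto u atTop (𝓝 0)) : C₀(ℕ, ℝ) where
  toFun := u
  continuous_toFun := continuous_of_discreteTopology
  zero_at_infty' := by
    rw [cocompact_eq_cofinite, Nat.cofinite_eq_atTop]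
    exact hu

theorem c0_apply (u : ℕ → ℝ) (hu : Tendsto u atTop (𝓝 0)) (j : ℕ) : c0 u hu j = u j := rfl

theorem norm_le_iff (w : C₀(ℕ, ℝ)) (C : ℝ) (hC : 0 ≤ C) : ‖w‖ ≤ C ↔ ∀ j, |w j| ≤ C := by
  rw [← ZeroAtInftyContinuousMap.norm_toBCF_eq_norm, BoundedContinuousFunction.norm_le hC]
  rfl

theorem abs_le_norm (w : C₀(ℕ, ℝ)) (j : ℕ) : |w j| ≤ ‖w‖ :=
  (norm_le_iff w _ (norm_nonneg _)).mp le_rfl j

theorem null_of (w : C₀(ℕ, ℝ)) : Tendsto w atTop (𝓝 0) := by
  have := w.zero_at_infty'
  rw [cocompact_eq_cofinite, Nat.cofinite_eq_atTop] at this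
  exact this

/-- the unit vectors. -/
noncomputable def unit (j : ℕ) : C₀(ℕ, ℝ) := c0 (Pi.single j 1) (by
  refine tendsto_const_nhds.congr' ?_
  filter_upwards [eventually_gt_atTop j] with i hi
  rw [Pi.single_eq_of_ne (by omega)])

theorem sum_apply (F : Finset ℕ) (b : ℕ → ℝ) (i : ℕ) :
    (∑ j ∈ F, b j • unit j) i = if i ∈ F then b i else 0 := by
  classical
  induction F using Finset.induction_on with
  | empty => simp
  | insert j F hj ih =>
    rw [Finset.sum_insert hj, ZeroAtInftyContinuousMap.add_apply, ih,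
      ZeroAtInftyContinuousMap.smul_apply, unit, c0_apply]
    by_cases hij : i = j
    · subst hij
      simp [hj]
    · simp [hij]

theorem trunc_tendsto (w : C₀(ℕ, ℝ)) :
    Tendsto (fun n => ∑ j ∈ Finset.range n, w j • unit j) atTop (𝓝 w) := by
  rw [tendsto_iff_norm_sub_tendsto_zero, Metric.tendsto_nhds]
  intro ε hε
  have h1 := Metric.tendsto_nhds.mp (null_of w) (ε / 2) (by positivity)
  obtain ⟨N, hN⟩ := eventually_atTop.mp h1
  filter_upwards [eventually_ge_atTop N] with n hn
  rw [Real.dist_eq, sub_zero, abs_of_nonneg (norm_nonneg _)]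
  refine lt_of_le_of_lt ((norm_le_iff _ (ε / 2) (by positivity)).mpr fun i => ?_) (by linarith)
  rw [ZeroAtInftyContinuousMap.sub_apply, sum_apply]
  by_cases hi : i ∈ Finset.range n
  · simp only [hi, if_true, sub_self, abs_zero]
    positivity
  · simp only [hi, if_false, zero_sub, abs_neg]
    rw [Finset.mem_range, not_lt] at hi
    have h2 := hN i (hn.trans hi)
    rw [Real.dist_eq, sub_zero] at h2
    exact h2.le

/-- functionals on the space of null sequences. -/
theorem dual_c0 (Λ : C₀(ℕ, ℝ) →L[ℝ] ℝ) :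
    Summable (fun j => |Λ (unit j)|) ∧
      ∀ w : C₀(ℕ, ℝ), HasSum (fun j => w j * Λ (unit j)) (Λ w) := by
  have hsum : Summable (fun j => |Λ (unit j)|) := by
    refine summable_of_sum_range_le (c := ‖Λ‖) (fun j => abs_nonneg _) fun n => ?_
    let σ : ℕ → ℝ := fun j => if 0 ≤ Λ (unit j) then 1 else -1
    have h1 : ∑ j ∈ Finset.range n, |Λ (unit j)| = Λ (∑ j ∈ Finset.range n, σ j • unit j) := by
      rw [map_sum]
      refine Finset.sum_congr rfl fun j _ => ?_
      rw [map_smul, smul_eq_mul]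
      by_cases hj : 0 ≤ Λ (unit j)
      · simp [σ, hj, abs_of_nonneg hj]
      · simp [σ, hj, abs_of_neg (not_le.mp hj)]
    rw [h1]
    have h2 : ‖∑ j ∈ Finset.range n, σ j • unit j‖ ≤ 1 := by
      refine (norm_le_iff _ 1 zero_le_one).mpr fun i => ?_
      rw [sum_apply]
      by_cases hi : i ∈ Finset.range n
      · simp only [hi, if_true, σ]
        split_ifs <;> simp
      · simp [hi]
    calc Λ (∑ j ∈ Finset.range n, σ j • unit j) ≤ ‖Λ (∑ j ∈ Finset.range n, σ j • unit j)‖ :=
          le_abs_self _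
      _ ≤ ‖Λ‖ * ‖∑ j ∈ Finset.range n, σ j • unit j‖ := Λ.le_opNorm _
      _ ≤ ‖Λ‖ * 1 := by gcongr
      _ = ‖Λ‖ := mul_one _
  refine ⟨hsum, fun w => ?_⟩
  have h1 : Summable (fun j => w j * Λ (unit j)) := by
    refine Summable.of_norm_bounded (g := fun j => ‖w‖ * |Λ (unit j)|) (hsum.mul_left _) fun j => ?_
    rw [Real.norm_eq_abs, abs_mul]
    gcongr
    exact abs_le_norm w j
  rw [h1.hasSum_iff_tendsto_nat]
  have h2 := (Λ.continuous.tendsto w).comp (trunc_tendsto w)
  refine h2.congr fun n => ?_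
  simp only [Function.comp_apply, map_sum, map_smul, smul_eq_mul]

section

variable {X : Type*} [NormedAddCommGroup X] [NormedSpace ℝ X]

/-- approximate surjectivity onto the null sequences. -/
theorem approx_onto (E : Submodule ℝ X) (φ : ℕ → (X →L[ℝ] ℝ)) (C : ℝ) (hC : 0 ≤ C)
    (hφ : ∀ j, ‖φ j‖ ≤ C)
    (hnull : ∀ e ∈ E, Tendsto (fun j => φ j e) atTop (𝓝 0)) (c : ℝ) (hc : 0 < c)
    (hlow : ∀ (F : Finset ℕ) (a : ℕ → ℝ) (t : ℝ), 0 ≤ t →
      (∀ e ∈ E, |∑ j ∈ F, a j * φ j e| ≤ t * ‖e‖) → c * ∑ j ∈ F, |a j| ≤ t)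
    (u : ℕ → ℝ) (hu : Tendsto u atTop (𝓝 0)) (hu1 : ∀ j, |u j| ≤ 1) :
    ∃ e ∈ E, ‖e‖ ≤ 1 / c ∧ ∀ j, |φ j e - u j| ≤ 1 / 2 := by
  classical
  let S : Set C₀(ℕ, ℝ) := {w | ∃ e ∈ E, ‖e‖ ≤ 1 / c ∧ ∀ j, w j = φ j e}
  by_cases hmem : c0 u hu ∈ closure S
  · obtain ⟨w, ⟨e, he, hen, hw⟩, hd⟩ := Metric.mem_closure_iff.mp hmem (1 / 2) (by norm_num)
    refine ⟨e, he, hen, fun j => ?_⟩
    rw [dist_comm, dist_eq_norm] at hd
    have h1 := abs_le_norm (w - c0 u hu) j
    rw [ZeroAtInftyContinuousMap.sub_apply, c0_apply, hw] at h1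
    linarith
  · exfalso
    have hS : Convex ℝ S := by
      rintro w1 ⟨e1, he1, hn1, hw1⟩ w2 ⟨e2, he2, hn2, hw2⟩ a b ha hb hab
      refine ⟨a • e1 + b • e2, E.add_mem (E.smul_mem _ he1) (E.smul_mem _ he2), ?_, fun j => ?_⟩
      · calc ‖a • e1 + b • e2‖ ≤ ‖a • e1‖ + ‖b • e2‖ := norm_add_le _ _
          _ = a * ‖e1‖ + b * ‖e2‖ := by
            rw [norm_smul, norm_smul, Real.norm_of_nonneg ha, Real.norm_of_nonneg hb]
          _ ≤ a * (1 / c) + b * (1 / c) := by gcongr
          _ = 1 / c := by rw [← add_mul, hab, one_mul]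
      · rw [ZeroAtInftyContinuousMap.add_apply, ZeroAtInftyContinuousMap.smul_apply,
          ZeroAtInftyContinuousMap.smul_apply, hw1, hw2, map_add, map_smul, map_smul]
    obtain ⟨Λ, s, h1, h2⟩ := geometric_hahn_banach_closed_point hS.closure isClosed_closure hmem
    obtain ⟨hsum, hval⟩ := dual_c0 Λ
    have hle : ∀ e ∈ E, ‖e‖ ≤ 1 / c → ∑' j, φ j e * Λ (unit j) ≤ s := by
      intro e he hen
      have h3 := hval (c0 (fun j => φ j e) (hnull e he))
      have h4 : (∑' j, φ j e * Λ (unit j)) = Λ (c0 (fun j => φ j e) (hnull e he)) := h3.tsum_eq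
      rw [h4]
      exact (h1 _ (subset_closure ⟨e, he, hen, fun j => rfl⟩)).le
    have hsm : ∀ e ∈ E, Summable (fun j => φ j e * Λ (unit j)) := fun e he =>
      (hval (c0 (fun j => φ j e) (hnull e he))).summable
    have hs0 : 0 ≤ s := by
      have := hle 0 E.zero_mem (by rw [norm_zero]; positivity)
      simpa using this
    -- tail bound
    have htail : ∀ n : ℕ, c * ∑ j ∈ Finset.range n, |Λ (unit j)| ≤
        c * s + C * ∑' j, |Λ (unit (j + n))| := by
      intro n
      have hτ : 0 ≤ ∑' j, |Λ (unit (j + n))| := tsum_nonneg fun j => abs_nonneg _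
      refine hlow (Finset.range n) (fun j => Λ (unit j)) _ (by positivity) ?_
      have key : ∀ e ∈ E, ‖e‖ ≤ 1 / c → ∑ j ∈ Finset.range n, Λ (unit j) * φ j e ≤
          s + C * (1 / c) * ∑' j, |Λ (unit (j + n))| := by
        intro e he hen
        have h3 := (hsm e he).sum_add_tsum_nat_add n
        have h4 : |∑' j, φ (j + n) e * Λ (unit (j + n))| ≤
            C * (1 / c) * ∑' j, |Λ (unit (j + n))| := by
          have h5 : Summable (fun j => |Λ (unit (j + n))|) := (summable_nat_add_iff n).mpr hsum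
          rw [← tsum_mul_left]
          have h6 : ∀ j, ‖φ (j + n) e * Λ (unit (j + n))‖ ≤ C * (1 / c) * |Λ (unit (j + n))| := by
            intro j
            rw [norm_mul]
            refine mul_le_mul ?_ le_rfl (norm_nonneg _) (by positivity)
            calc ‖φ (j + n) e‖ ≤ ‖φ (j + n)‖ * ‖e‖ := (φ (j + n)).le_opNorm e
              _ ≤ C * (1 / c) := mul_le_mul (hφ _) hen (norm_nonneg _) hC
          have h7 := tsum_of_norm_bounded (h5.mul_left (C * (1 / c))).hasSum h6
          rw [Real.norm_eq_abs] at h7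
          exact h7
        have h5 := hle e he hen
        have h6 : ∑ j ∈ Finset.range n, Λ (unit j) * φ j e =
            ∑ j ∈ Finset.range n, φ j e * Λ (unit j) :=
          Finset.sum_congr rfl fun j _ => mul_comm _ _
        rw [h6]
        have := neg_abs_le (∑' j, φ (j + n) e * Λ (unit (j + n)))
        linarith
      intro e he
      by_cases h0 : ‖e‖ = 0
      · have : e = 0 := norm_eq_zero.mp h0
        simp [this]
      · have hpos : 0 < ‖e‖ := lt_of_le_of_ne (norm_nonneg e) (Ne.symm h0)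
        have h3 : ∀ e' ∈ E, ‖e'‖ = ‖e‖ → ∑ j ∈ Finset.range n, Λ (unit j) * φ j e' ≤
            (c * s + C * ∑' j, |Λ (unit (j + n))|) * ‖e‖ := by
          intro e' he' hee
          have h4 := key ((1 / (c * ‖e‖)) • e') (E.smul_mem _ he') (by
            rw [norm_smul, hee, Real.norm_of_nonneg (by positivity)]
            apply le_of_eq
            field_simp)
          have h5 : ∑ j ∈ Finset.range n, Λ (unit j) * φ j ((1 / (c * ‖e‖)) • e') =
              (1 / (c * ‖e‖)) * ∑ j ∈ Finset.range n, Λ (unit j) * φ j e' := by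
            rw [Finset.mul_sum]
            refine Finset.sum_congr rfl fun j _ => ?_
            rw [map_smul, smul_eq_mul]
            ring
          rw [h5, one_div, inv_mul_le_iff₀ (by positivity)] at h4
          calc _ ≤ _ := h4
            _ = _ := by field_simp
        rw [abs_le]
        constructor
        · have h4 := h3 (-e) (E.neg_mem he) (norm_neg e)
          simp only [map_neg, mul_neg, Finset.sum_neg_distrib] at h4
          linarith
        · exact h3 e he rfl
    have hlimit : c * ∑' j, |Λ (unit j)| ≤ c * s := by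
      have h3 := hsum.hasSum.tendsto_sum_nat.const_mul c
      have h4 := ((tendsto_sum_nat_add fun j => |Λ (unit j)|).const_mul C).const_add (c * s)
      rw [mul_zero, add_zero] at h4
      exact le_of_tendsto_of_tendsto' h3 h4 htail
    have hfin : Λ (c0 u hu) ≤ ∑' j, |Λ (unit j)| := by
      have h3 := hval (c0 u hu)
      refine hasSum_le (fun j => ?_) h3 hsum.hasSum
      rw [c0_apply]
      calc u j * Λ (unit j) ≤ |u j * Λ (unit j)| := le_abs_self _
        _ = |u j| * |Λ (unit j)| := abs_mul _ _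
        _ ≤ 1 * |Λ (unit j)| := by
          gcongr
          exact hu1 j
        _ = _ := one_mul _
    have h5 : ∑' j, |Λ (unit j)| ≤ s := le_of_mul_le_mul_left hlimit hc
    linarith

/-- surjectivity onto the null sequences. -/
theorem onto [CompleteSpace X] (E : Submodule ℝ X) (hE : IsClosed (E : Set X))
    (φ : ℕ → (X →L[ℝ] ℝ)) (C : ℝ) (hC : 0 ≤ C)
    (hφ : ∀ j, ‖φ j‖ ≤ C)
    (hnull : ∀ e ∈ E, Tendsto (fun j => φ j e) atTop (𝓝 0)) (c : ℝ) (hc : 0 < c)
    (hlow : ∀ (F : Finset ℕ) (a : ℕ → ℝ) (t : ℝ), 0 ≤ t →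
      (∀ e ∈ E, |∑ j ∈ F, a j * φ j e| ≤ t * ‖e‖) → c * ∑ j ∈ F, |a j| ≤ t)
    (u : ℕ → ℝ) (hu : Tendsto u atTop (𝓝 0)) :
    ∃ e ∈ E, ∀ j, φ j e = u j := by
  classical
  -- homogeneous version of the approximation
  have happ : ∀ (v : ℕ → ℝ) (M : ℝ), Tendsto v atTop (𝓝 0) → 0 < M → (∀ j, |v j| ≤ M) →
      ∃ e ∈ E, ‖e‖ ≤ M / c ∧ ∀ j, |v j - φ j e| ≤ M / 2 := by
    intro v M hv hM hvM
    obtain ⟨e, he, hen, hej⟩ := approx_onto E φ C hC hφ hnull c hc hlow (fun j => v j / M)
      (by simpa using hv.div_const M) (fun j => by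
        rw [abs_div, abs_of_pos hM]
        exact div_le_one_of_le₀ (hvM j) hM.le)
    refine ⟨M • e, E.smul_mem _ he, ?_, fun j => ?_⟩
    · rw [norm_smul, Real.norm_of_nonneg hM.le]
      calc M * ‖e‖ ≤ M * (1 / c) := by gcongr
        _ = M / c := by ring
    · have h1 := hej j
      rw [map_smul, smul_eq_mul]
      have h2 : v j - M * φ j e = -(M * (φ j e - v j / M)) := by
        field_simp
        ring
      rw [h2, abs_neg, abs_mul, abs_of_pos hM]
      calc M * |φ j e - v j / M| ≤ M * (1 / 2) := by gcongr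
        _ = M / 2 := by ring
  choose! ef hef1 hef2 hef3 using happ
  obtain ⟨M, hM⟩ : ∃ M : ℝ, ∀ j, |u j| ≤ M := by
    obtain ⟨M, hM⟩ := hu.abs.bddAbove_range
    exact ⟨M, fun j => hM ⟨j, rfl⟩⟩
  let K : ℝ := |M| + 1
  have hK : 0 < K := by positivity
  let v : ℕ → ℕ → ℝ := fun k => Nat.rec u (fun k v => fun j => v j - φ j (ef v (K / 2 ^ k))) k
  have hv : ∀ k j, v (k + 1) j = v k j - φ j (ef (v k) (K / 2 ^ k)) := fun k j => rfl
  have hinv : ∀ k, Tendsto (v k) atTop (𝓝 0) ∧ ∀ j, |v k j| ≤ K / 2 ^ k := by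
    intro k
    induction k with
    | zero =>
      refine ⟨hu, fun j => ?_⟩
      rw [pow_zero, div_one]
      have h1 := (hM j).trans (le_abs_self M)
      have h2 : v 0 j = u j := rfl
      rw [h2]
      linarith
    | succ k ih =>
      have hKk : 0 < K / 2 ^ k := by positivity
      refine ⟨?_, fun j => ?_⟩
      · have h1 := ih.1.sub (hnull _ (hef1 (v k) (K / 2 ^ k) ih.1 hKk ih.2))
        rw [sub_zero] at h1
        exact h1
      · rw [hv]
        calc _ ≤ _ := hef3 (v k) (K / 2 ^ k) ih.1 hKk ih.2 j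
          _ = K / 2 ^ (k + 1) := by
            rw [pow_succ]
            field_simp
  let e : ℕ → X := fun k => ef (v k) (K / 2 ^ k)
  have heE : ∀ k, e k ∈ E := fun k =>
    hef1 (v k) (K / 2 ^ k) (hinv k).1 (by positivity) (hinv k).2
  have hen : ∀ k, ‖e k‖ ≤ K / c * (1 / 2) ^ k := by
    intro k
    calc ‖e k‖ ≤ K / 2 ^ k / c := hef2 (v k) (K / 2 ^ k) (hinv k).1 (by positivity) (hinv k).2
      _ = K / c * (1 / 2) ^ k := by
        rw [one_div, inv_pow]
        field_simp
  have hsum : Summable e := by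
    refine Summable.of_norm_bounded (g := fun k => K / c * (1 / 2) ^ k) ?_ hen
    exact (summable_geometric_of_lt_one (by norm_num) (by norm_num)).mul_left _
  refine ⟨∑' k, e k, ?_, fun j => ?_⟩
  · refine hE.mem_of_tendsto hsum.hasSum (Eventually.of_forall fun s => ?_)
    exact E.sum_mem fun k _ => heE k
  · have h1 : HasSum (fun k => φ j (e k)) (φ j (∑' k, e k)) := hsum.hasSum.mapL (φ j)
    have h2 := h1.tendsto_sum_nat
    have h3 : ∀ n, ∑ k ∈ Finset.range n, φ j (e k) = u j - v n j := by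
      intro n
      induction n with
      | zero => simp [v]
      | succ n ih =>
        rw [Finset.sum_range_succ, ih, hv]
        ring
    simp only [h3] at h2
    have h4 : Tendsto (fun n => v n j) atTop (𝓝 0) := by
      have h5 : Tendsto (fun n : ℕ => K / 2 ^ n) atTop (𝓝 0) := by
        have h6 := (tendsto_pow_atTop_nhds_zero_of_lt_one (r := (1 / 2 : ℝ)) (by norm_num)
          (by norm_num)).const_mul K
        rw [mul_zero] at h6
        refine h6.congr fun n => ?_
        rw [one_div, inv_pow]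
        rfl
      exact squeeze_zero_norm (fun n => (hinv n).2 j) h5
    have h5 := h4.const_sub (u j)
    rw [sub_zero] at h5
    exact tendsto_nhds_unique h2 h5

end

end PU
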