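import Mathlib
import Pool.Agent.Lib_helper59.PU.Onto

set_option autoImplicit false
set_option maxSynthPendingDepth 3

open Filter Topology MeasureTheory Function

namespace PU

section

variable {X : Type*} [NormedAddCommGroup X] [NormedSpace ℝ X]
    {Ω : Type*} [MeasurableSpace Ω] {μ : Measure Ω}

/-- lower `ℓ¹` estimate on the space spanned by the integrals. -/
theorem l1_lower (f : Ω → X)
    (hi : ∀ φ : X →L[ℝ] ℝ, Integrable (fun ω => φ (f ω)) μ)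
    (hP : ∀ A : Set Ω, MeasurableSet A → ∃ v : X, ∀ φ : X →L[ℝ] ℝ, φ v = ∫ ω in A, φ (f ω) ∂μ)
    (E : Submodule ℝ X)
    (hE : ∀ (A : Set Ω) (v : X), MeasurableSet A →
      (∀ φ : X →L[ℝ] ℝ, φ v = ∫ ω in A, φ (f ω) ∂μ) → v ∈ E)
    (g : Ω → ℕ) (hgb : ∀ φ : X →L[ℝ] ℝ, ∀ᵐ ω ∂μ, |φ (f ω)| ≤ ‖φ‖ * g ω)
    (m : ℕ) (A0 : Set Ω) (hA0 : A0 ⊆ {ω | g ω ≤ m}) (φ : ℕ → (X →L[ℝ] ℝ)) (η : ℝ)
    (hpat : ∀ (F : Finset ℕ) (σ : ℕ → ℝ), (∀ j, σ j = 1 ∨ σ j = -1) →
        0 < μ (A0 ∩ {ω | ∀ j ∈ F, η < σ j * φ j (f ω)}))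
    (F : Finset ℕ) (a : ℕ → ℝ) (t : ℝ) (ht : 0 ≤ t)
    (h : ∀ e ∈ E, |∑ j ∈ F, a j * φ j e| ≤ t * ‖e‖) : η * ∑ j ∈ F, |a j| ≤ t * m := by
  classical
  let y : X →L[ℝ] ℝ := ∑ j ∈ F, a j • φ j
  have hy : ∀ z, y z = ∑ j ∈ F, a j * φ j z := by
    intro z
    simp only [y, FunLike.coe_sum, Finset.sum_apply, FunLike.coe_smul, Pi.smul_apply, smul_eq_mul]
  obtain ⟨z, hz1, hz2⟩ := exists_extension_norm_eq E (y.comp E.subtypeL)
  have hzt : ‖z‖ ≤ t := by
    rw [hz2]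
    refine ContinuousLinearMap.opNorm_le_bound _ ht fun e => ?_
    have h1 := h e e.2
    rw [← hy] at h1
    exact h1
  have h0 : ∀ᵐ ω ∂μ, (z - y) (f ω) = 0 := by
    refine PT.ae_zero hi hP E hE (z - y) fun e he => ?_
    have h1 := hz1 ⟨e, he⟩
    rw [_root_.sub_apply]
    have h2 : (y.comp E.subtypeL) ⟨e, he⟩ = y e := rfl
    rw [h2] at h1
    have h3 : z ((⟨e, he⟩ : E) : X) = z e := rfl
    rw [h3] at h1
    linarith
  let σ : ℕ → ℝ := fun j => if 0 ≤ a j then 1 else -1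
  have hσ : ∀ j, σ j = 1 ∨ σ j = -1 := by
    intro j
    by_cases hj : 0 ≤ a j
    · left; simp [σ, hj]
    · right; simp [σ, hj]
  have hσa : ∀ j, a j = |a j| * σ j := by
    intro j
    by_cases hj : 0 ≤ a j
    · simp [σ, hj, abs_of_nonneg hj]
    · simp [σ, hj, abs_of_neg (not_le.mp hj)]
  have hae : ∀ᵐ ω ∂μ, (z - y) (f ω) = 0 ∧ |z (f ω)| ≤ ‖z‖ * g ω := h0.and (hgb z)
  obtain ⟨ω, ⟨hω1, hω2⟩, hω3, hω4⟩ := Measure.exists_mem_of_measure_ne_zero_of_ae (hpat F σ hσ).ne'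
    (ae_restrict_of_ae hae)
  have h1 : z (f ω) = y (f ω) := by
    rw [_root_.sub_apply] at hω3
    linarith
  have h2 : η * ∑ j ∈ F, |a j| ≤ y (f ω) := by
    rw [hy, Finset.mul_sum]
    refine Finset.sum_le_sum fun j hj => ?_
    have h3 : η < σ j * φ j (f ω) := hω2 j hj
    calc η * |a j| = |a j| * η := mul_comm _ _
      _ ≤ |a j| * (σ j * φ j (f ω)) := by
        gcongr
      _ = a j * φ j (f ω) := by
        rw [← mul_assoc, ← hσa]
  have h3 : (g ω : ℝ) ≤ m := by exact_mod_cast hA0 hω1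
  calc η * ∑ j ∈ F, |a j| ≤ y (f ω) := h2
    _ = z (f ω) := h1.symm
    _ ≤ |z (f ω)| := le_abs_self _
    _ ≤ ‖z‖ * g ω := hω4
    _ ≤ t * m := by gcongr

/-- pointwise convergence to zero extends from a set to its closed linear span. -/
theorem null_span (φ : ℕ → (X →L[ℝ] ℝ)) (C : ℝ) (hC : 0 ≤ C) (hφ : ∀ j, ‖φ j‖ ≤ C) (R : Set X)
    (hR : ∀ v ∈ R, Tendsto (fun j => φ j v) atTop (𝓝 0)) (e : X)
    (he : e ∈ (Submodule.span ℝ R).topologicalClosure) :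
    Tendsto (fun j => φ j e) atTop (𝓝 0) := by
  have hspan : ∀ v ∈ Submodule.span ℝ R, Tendsto (fun j => φ j v) atTop (𝓝 0) := by
    intro v hv
    induction hv using Submodule.span_induction with
    | mem v hv => exact hR v hv
    | zero => simp
    | add v w _ _ h1 h2 =>
      have := h1.add h2
      rw [add_zero] at this
      refine this.congr fun j => ?_
      rw [map_add]
    | smul c v _ h1 =>
      have := h1.const_mul c
      rw [mul_zero] at this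
      refine this.congr fun j => ?_
      rw [map_smul, smul_eq_mul]
  rw [Metric.tendsto_nhds]
  intro ε hε
  have he' : e ∈ closure (Submodule.span ℝ R : Set X) := he
  obtain ⟨v, hv, hev⟩ := Metric.mem_closure_iff.mp he' (ε / (2 * (C + 1))) (by positivity)
  have h1 := Metric.tendsto_nhds.mp (hspan v hv) (ε / 2) (by positivity)
  filter_upwards [h1] with j hj
  rw [Real.dist_eq, sub_zero] at hj ⊢
  have h2 : |φ j (e - v)| ≤ ε / 2 := by
    rw [dist_eq_norm] at hev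
    calc |φ j (e - v)| = ‖φ j (e - v)‖ := rfl
      _ ≤ ‖φ j‖ * ‖e - v‖ := (φ j).le_opNorm _
      _ ≤ (C + 1) * (ε / (2 * (C + 1))) :=
        mul_le_mul ((hφ j).trans (by linarith)) hev.le (norm_nonneg _) (by positivity)
      _ = ε / 2 := by field_simp
  have h3 : φ j e = φ j (e - v) + φ j v := by
    rw [map_sub]
    ring
  rw [h3]
  have := abs_add_le (φ j (e - v)) (φ j v)
  linarith

/-- on a relatively compact set a bounded weak* null sequence is uniformly small. -/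
theorem unif_small (φ : ℕ → (X →L[ℝ] ℝ)) (C : ℝ) (hC : 0 ≤ C) (hφ : ∀ j, ‖φ j‖ ≤ C) (R : Set X)
    (hR : ∀ v ∈ R, Tendsto (fun j => φ j v) atTop (𝓝 0)) (hT : TotallyBounded R) (δ : ℝ)
    (hδ : 0 < δ) : ∃ j, ∀ v ∈ R, |φ j v| < δ := by
  obtain ⟨t, htS, htf, ht⟩ := totallyBounded_iff_subset.mp hT _
    (Metric.dist_mem_uniformity (show 0 < δ / (2 * (C + 1)) by positivity))
  have h1 : ∀ᶠ j in atTop, ∀ y ∈ htf.toFinset, |φ j y| < δ / 2 := by
    rw [Filter.eventually_all_finset]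
    intro y hy
    have h2 := Metric.tendsto_nhds.mp (hR y (htS (htf.mem_toFinset.mp hy))) (δ / 2) (by positivity)
    filter_upwards [h2] with j hj
    rw [Real.dist_eq, sub_zero] at hj
    exact hj
  obtain ⟨j, hj⟩ := h1.exists
  refine ⟨j, fun v hv => ?_⟩
  obtain ⟨y, hy, hvy⟩ := Set.mem_iUnion₂.mp (ht hv)
  have h2 : dist v y < δ / (2 * (C + 1)) := hvy
  rw [dist_eq_norm] at h2
  have h3 : |φ j (v - y)| ≤ δ / 2 := by
    calc |φ j (v - y)| = ‖φ j (v - y)‖ := rfl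
      _ ≤ ‖φ j‖ * ‖v - y‖ := (φ j).le_opNorm _
      _ ≤ (C + 1) * (δ / (2 * (C + 1))) :=
        mul_le_mul ((hφ j).trans (by linarith)) h2.le (norm_nonneg _) (by positivity)
      _ = δ / 2 := by field_simp
  have h4 := hj y (htf.mem_toFinset.mpr hy)
  have h5 : φ j v = φ j (v - y) + φ j y := by
    rw [map_sub]
    ring
  rw [h5]
  have := abs_add_le (φ j (v - y)) (φ j y)
  linarith

end

end PU
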